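import Pool.Agent.H460.EX.Fin

/-! The curves with a small additive part: a refinement of `Pool.Agent.H460.EC.exc_all`, with the same
proof. -/

set_option autoImplicit false

namespace Pool.Agent.H845.SZ

open Filter Topology
open Pool.Agent.H828_AC (D Reg Per HasDens Qs N6 Ht Ht_le)
open Pool.Agent.H460.EC

/-- the curves which do not satisfy: `H ≤ N₆ ^ (1 + ε)`, and `Q ≤ N₆ ^ ε` for all `Q` with
`Q² ∣ D` -/
def Bad (ε κ Y : ℝ) : Set (ℤ × ℤ) :=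
  {z | Qs z.1 z.2 ∧ |(D z.1 z.2 : ℝ)| ≤ Y ∧ Ht z.1 z.2 ≤ Y ^ κ ∧
    ¬ (Ht z.1 z.2 ≤ (N6 z.1 z.2 : ℝ) ^ (1 + ε) ∧
      ∀ Q : ℕ, (Q : ℤ) ^ 2 ∣ D z.1 z.2 → (Q : ℝ) ≤ (N6 z.1 z.2 : ℝ) ^ ε)}

theorem bad_fam {ε κ Y : ℝ} (hY : 1 ≤ Y) {κ' : ℝ} (hκ : κ ≤ κ') {z : ℤ × ℤ}
    (hz : z ∈ Bad ε κ Y) : z ∈ Fam Qs Y (Y ^ (κ' / 3)) :=
  allC_fam hY hκ ⟨hz.1, hz.2.1, hz.2.2.1⟩

theorem num_aux2 {Y ε η τ N T : ℝ} (hY : 1 ≤ Y) (hε : 0 < ε) (hε1 : ε ≤ 1) (hη : 0 < η)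
    (hη2 : η ≤ ε / 32) (hτ : 0 < τ) (hτ2 : τ ≤ ε / 16) (hT0 : 0 < T) (hT : T ≤ 2 * Y ^ τ)
    (hN : Y ^ (1 - η) ≤ T ^ 2 * (6 * N))
    (hbig : 2880 ≤ Y ^ (ε / 2)) : 2 * Y ^ τ ≤ N ^ ε := by
  have hY0 : 0 < Y := by linarith
  have hN0 : 0 ≤ N := by
    by_contra hc
    push Not at hc
    have h1 : 0 < Y ^ (1 - η) := Real.rpow_pos_of_pos hY0 _
    have h2 : T ^ 2 * (6 * N) ≤ 0 := mul_nonpos_of_nonneg_of_nonpos (by positivity) (by linarith)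
    linarith
  have hT2 : T ^ 2 ≤ 4 * Y ^ (2 * τ) := by
    have h1 := pow_le_pow_left₀ hT0.le hT 2
    have e1 : (2 * Y ^ τ) ^ 2 = 4 * Y ^ (2 * τ) := by
      rw [mul_pow, ← Real.rpow_natCast (Y ^ τ), ← Real.rpow_mul hY0.le, mul_comm τ]
      norm_num
    rwa [e1] at h1
  have h1 : Y ^ (1 - η - 2 * τ) / 24 ≤ N := by
    rw [div_le_iff₀ (by norm_num)]
    have h2 : Y ^ (1 - η) ≤ 4 * Y ^ (2 * τ) * (6 * N) :=
      hN.trans (mul_le_mul_of_nonneg_right hT2 (by linarith))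
    have h3 : Y ^ (1 - η) = Y ^ (1 - η - 2 * τ) * Y ^ (2 * τ) := by
      rw [← Real.rpow_add hY0]
      congr 1
      ring
    rw [h3] at h2
    have h4 : 0 < Y ^ (2 * τ) := Real.rpow_pos_of_pos hY0 _
    have h5 : Y ^ (1 - η - 2 * τ) * Y ^ (2 * τ) ≤ (N * 24) * Y ^ (2 * τ) := by linarith
    exact le_of_mul_le_mul_right h5 h4
  have h2 : (Y ^ (1 - η - 2 * τ) / 24) ^ ε ≤ N ^ ε :=
    Real.rpow_le_rpow (by positivity) h1 hε.le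
  have h3 : (24 : ℝ) ^ ε ≤ 24 := by
    calc (24 : ℝ) ^ ε ≤ 24 ^ (1 : ℝ) := Real.rpow_le_rpow_of_exponent_le (by norm_num) hε1
      _ = 24 := Real.rpow_one _
  have h4 : Y ^ ((1 - η - 2 * τ) * ε) / 24 ≤ (Y ^ (1 - η - 2 * τ) / 24) ^ ε := by
    rw [Real.div_rpow (by positivity) (by norm_num), ← Real.rpow_mul hY0.le]
    exact div_le_div_of_nonneg_left (by positivity) (by positivity) h3
  have h5 : 2 * Y ^ τ ≤ Y ^ ((1 - η - 2 * τ) * ε) / 24 := by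
    rw [le_div_iff₀ (by norm_num)]
    have h6 : Y ^ τ * Y ^ (ε / 2) ≤ Y ^ ((1 - η - 2 * τ) * ε) := by
      rw [← Real.rpow_add hY0]
      refine Real.rpow_le_rpow_of_exponent_le hY ?_
      nlinarith
    have h7 : 0 < Y ^ τ := Real.rpow_pos_of_pos hY0 _
    nlinarith
  exact h5.trans (h4.trans h2)

theorem bad_ev {ε κ : ℝ} (hε : 0 < ε) (hε1 : ε ≤ 1) (hκ : 2 ≤ κ) (hκ2 : κ < 8) :
    ∃ δ C : ℝ, 0 < δ ∧ 0 < C ∧ ∀ᶠ Y : ℝ in atTop,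
    ((Bad ε κ Y).ncard : ℝ) ≤ C * (Y ^ ((5 : ℝ) / 6) * Y ^ (-δ)) := by
  obtain ⟨δu, Cq, hδu, hCq, hqc⟩ := qc
  set π := min (δu / 20) (1 / 40) with hπ
  have hπ0 : 0 < π := lt_min (by positivity) (by norm_num)
  have hπ1 : π ≤ δu / 20 := min_le_left _ _
  have hπ2 : π ≤ 1 / 40 := min_le_right _ _
  set τ := min (δu / 20) (ε / 16) with hτ
  have hτ0 : 0 < τ := lt_min (by positivity) (by positivity)
  have hτ1 : τ ≤ δu / 20 := min_le_left _ _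
  have hτ2 : τ ≤ ε / 16 := min_le_right _ _
  set η := min (π / 10) (ε / 32) with hη
  have hη0 : 0 < η := lt_min (by positivity) (by positivity)
  have hη1 : η ≤ π / 10 := min_le_left _ _
  have hη2 : η ≤ ε / 32 := min_le_right _ _
  obtain ⟨δc, Cc, hδc, hCc, hcusp⟩ := cusp_small (1 / 3 + η) (κ / 3) (by linarith) (by linarith)
    (by linarith)
  obtain ⟨Cs, hCs, hsmall⟩ := smallD (1 / 3 + η) η hη0 (by linarith) (by linarith)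
    (by rw [div_lt_iff₀ (by linarith)]; linarith)
  obtain ⟨Cb, hCb, hbigp⟩ := bigp hη0 (by linarith) hπ0 hπ2
  set δ := min (min δc (5 / 6 * η)) (τ / 2) with hδ
  have hδ0 : 0 < δ := lt_min (lt_min hδc (by positivity)) (by positivity)
  have hδ1 : δ ≤ δc := (min_le_left _ _).trans (min_le_left _ _)
  have hδ2 : δ ≤ 5 / 6 * η := (min_le_left _ _).trans (min_le_right _ _)
  have hδ3 : δ ≤ τ / 2 := min_le_right _ _
  refine ⟨δ, Cc + Cs + 300 + Cb + Cq, hδ0, by positivity, ?_⟩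
  have ev1 : ∀ᶠ Y : ℝ in atTop, 8 ≤ Y ^ π := (tendsto_rpow_atTop hπ0).eventually_ge_atTop _
  have ev2 : ∀ᶠ Y : ℝ in atTop, 256 ≤ Y ^ (δu / 5) :=
    (tendsto_rpow_atTop (by positivity)).eventually_ge_atTop _
  have ev3 : ∀ᶠ Y : ℝ in atTop, 2880 ≤ Y ^ (ε / 2) :=
    (tendsto_rpow_atTop (by positivity)).eventually_ge_atTop _
  filter_upwards [ev1, ev2, ev3, eventually_ge_atTop 8] with Y hY1 hY2 hY3 hY8
  have hY : 1 ≤ Y := by linarith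
  have hY0 : 0 < Y := by linarith
  have hmono : ∀ {s t : ℝ}, s ≤ t → Y ^ s ≤ Y ^ t := fun h =>
    Real.rpow_le_rpow_of_exponent_le hY h
  have hp56 : 0 < Y ^ ((5 : ℝ) / 6) := Real.rpow_pos_of_pos hY0 _
  have hpδ : 0 < Y ^ ((5 : ℝ) / 6) * Y ^ (-δ) := by positivity
  set Pn : ℕ := ⌊Y ^ π⌋₊ with hPn
  have hPn1 : (Pn : ℝ) ≤ Y ^ π := Nat.floor_le (by positivity)
  have hPn2 : Y ^ π / 2 ≤ Pn := by
    have := Nat.lt_floor_add_one (Y ^ π)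
    rw [← hPn] at this
    linarith
  have hPn4 : 4 ≤ Pn := by
    have : (4 : ℝ) ≤ Pn := by linarith
    exact_mod_cast this
  set T₀ : ℕ := ⌈Y ^ τ⌉₊ with hT₀
  have hτ1' : 1 ≤ Y ^ τ := Real.one_le_rpow hY hτ0.le
  have hT₀1 : Y ^ τ ≤ T₀ := Nat.le_ceil _
  have hT₀2 : (T₀ : ℝ) ≤ 2 * Y ^ τ := by
    have := Nat.ceil_lt_add_one (show 0 ≤ Y ^ τ by linarith)
    rw [← hT₀] at this
    linarith
  have hT₀3 : 1 ≤ T₀ := by
    have : (1 : ℝ) ≤ T₀ := by linarith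
    exact_mod_cast this
  set X : ℝ := 5 * (Y ^ η) ^ 3 * Y with hX
  have hηY : 1 ≤ Y ^ η := Real.one_le_rpow hY hη0.le
  have hX1 : X = 5 * Y ^ (1 + 3 * η) := by
    rw [hX, ← Real.rpow_natCast (Y ^ η), ← Real.rpow_mul hY0.le, Real.rpow_add hY0, Real.rpow_one]
    push_cast
    ring_nf
  have hXge : 1 ≤ X := by
    rw [hX1]
    have := Real.one_le_rpow hY (show 0 ≤ 1 + 3 * η by linarith)
    linarith
  -- the five sets
  let S1 := Fam (fun x _ => Y ^ (1 / 3 + η) < |(x : ℝ)|) Y (Y ^ (κ / 3))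
  let S2 := Fam (fun _ _ => True) (Y ^ (1 - η)) (Y ^ (1 / 3 + η))
  let S3 := Med X Pn (Y ^ (1 / 2 - π))
  let S4 := Big Y (Y ^ (1 / 3 + η)) (Y ^ (1 / 2 - π))
  let S5 := ({z | z ∈ Fam Qs Y (Y ^ (1 : ℝ)) ∧ ∃ q : ℕ, T₀ ≤ q ∧ q ≤ T₀ * Pn ∧
    (q : ℤ) ^ 2 ∣ D z.1 z.2} : Set (ℤ × ℤ))
  have hsub : Bad ε κ Y ⊆ S1 ∪ (S2 ∪ (S3 ∪ (S4 ∪ S5))) := by
    intro z hz
    obtain ⟨f1, f2, f3, f4⟩ := bad_fam hY le_rfl hz
    obtain ⟨h1, h2, h3, h4⟩ := hz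
    by_cases g1 : Y ^ (1 / 3 + η) < |(z.1 : ℝ)|
    · exact Or.inl ⟨f1, f2, f3, g1⟩
    push Not at g1
    by_cases g2 : |(D z.1 z.2 : ℝ)| ≤ Y ^ (1 - η)
    · exact Or.inr (Or.inl ⟨g1, f2, g2, trivial⟩)
    push Not at g2
    right; right
    have hreg : z ∈ Reg X := by
      refine mem_reg hηY hY0.le ?_ f3
      rw [← Real.rpow_add hY0, add_comm]
      exact g1
    by_cases g3 : ∃ p : ℕ, p.Prime ∧ Pn < p ∧ (p : ℤ) ^ 2 ∣ D z.1 z.2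
    · obtain ⟨p, hp, hpP, hpD⟩ := g3
      rcases le_or_gt (p : ℝ) (Y ^ (1 / 2 - π)) with g4 | g4
      · exact Or.inl ⟨hreg, p, hp, hpP, g4, hpD⟩
      · exact Or.inr (Or.inl ⟨⟨g1, f2, f3, trivial⟩, p, hp, g4, hpD⟩)
    push Not at g3
    right; right
    have hQP : ∀ Q : ℕ, (Q : ℤ) ^ 2 ∣ D z.1 z.2 → ∀ p : ℕ, p.Prime → p ∣ Q → p ≤ Pn := by
      intro Q hQD p hp hpQ
      by_contra hc
      push Not at hc
      refine g3 p hp hc (dvd_trans ?_ hQD)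
      exact pow_dvd_pow_of_dvd (Int.natCast_dvd_natCast.2 hpQ) 2
    by_cases g5 : ∃ Q : ℕ, T₀ ≤ Q ∧ (Q : ℤ) ^ 2 ∣ D z.1 z.2
    · obtain ⟨Q, g5, hQD⟩ := g5
      obtain ⟨q, hq1, hq2, hq3⟩ := greedy (by omega) g5 hT₀3 (by omega) (hQP Q hQD)
      refine ⟨⟨g1.trans (hmono (by linarith)), f2, f3, f4⟩, q, hq2, hq3, dvd_trans ?_ hQD⟩
      exact pow_dvd_pow_of_dvd (Int.natCast_dvd_natCast.2 hq1) 2
    · exfalso
      push Not at g5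
      obtain ⟨Q, hQ0, hQD, hQN⟩ := sq_part f2
      have g6 : Q < T₀ := by
        by_contra hc
        exact g5 Q (not_lt.1 hc) hQD
      have k1 : |(D z.1 z.2 : ℝ)| ≤ (T₀ : ℝ) ^ 2 * (6 * N6 z.1 z.2) := by
        rw [absD]
        have k2 : (D z.1 z.2).natAbs ≤ T₀ ^ 2 * (6 * N6 z.1 z.2) :=
          hQN.trans (Nat.mul_le_mul_right _ (Nat.pow_le_pow_left g6.le 2))
        exact_mod_cast k2
      have k2 := num_aux (N := N6 z.1 z.2) (H := Ht z.1 z.2) hY hε hε1 hη0 hη2 hτ0 hτ2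
        (show (0 : ℝ) < T₀ by exact_mod_cast hT₀3) hT₀2 (g2.le.trans k1) (N6_ge_one _ _)
        (by rw [← hX1]; exact Ht_le hreg) hY3
      have k3 := num_aux2 (N := N6 z.1 z.2) hY hε hε1 hη0 hη2 hτ0 hτ2
        (show (0 : ℝ) < T₀ by exact_mod_cast hT₀3) hT₀2 (g2.le.trans k1) hY3
      refine h4 ⟨k2, fun Q' hQ' => ?_⟩
      have g7 : Q' < T₀ := by
        by_contra hc
        exact g5 Q' (not_lt.1 hc) hQ'
      have g8 : (Q' : ℝ) ≤ T₀ := by exact_mod_cast g7.le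
      exact g8.trans (hT₀2.trans k3)
  have hf1 : S1.Finite := fam_finite _ _ _
  have hf2 : S2.Finite := fam_finite _ _ _
  have hf3 : S3.Finite := (Pool.Agent.H828_AC.reg_finite X).subset fun z hz => hz.1
  have hf4 : S4.Finite := (fam_finite _ _ _).subset fun z hz => hz.1
  have hf5 : S5.Finite := (fam_finite _ _ _).subset fun z hz => hz.1
  have hcard := (Set.ncard_le_ncard hsub (hf1.union (hf2.union (hf3.union (hf4.union hf5))))).trans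
    ((Set.ncard_union_le _ _).trans (Nat.add_le_add_left
      ((Set.ncard_union_le _ _).trans (Nat.add_le_add_left
        ((Set.ncard_union_le _ _).trans (Nat.add_le_add_left (Set.ncard_union_le _ _) _)) _)) _))
  have hcardR := (Nat.cast_le (α := ℝ)).2 hcard
  push_cast at hcardR
  -- bounds
  have b1 : (S1.ncard : ℝ) ≤ Cc * (Y ^ ((5 : ℝ) / 6) * Y ^ (-δ)) := by
    refine (hcusp Y hY).trans ?_
    have : Y ^ (-δc) ≤ Y ^ (-δ) := hmono (by linarith)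
    gcongr
  have b2 : (S2.ncard : ℝ) ≤ Cs * (Y ^ ((5 : ℝ) / 6) * Y ^ (-δ)) := by
    refine (hsmall Y hY).trans ?_
    have : Y ^ (-(5 / 6 * η)) ≤ Y ^ (-δ) := hmono (by linarith)
    gcongr
  have b4 : (S4.ncard : ℝ) ≤ Cb * (Y ^ ((5 : ℝ) / 6) * Y ^ (-δ)) := by
    refine (hbigp Y hY8).trans ?_
    have : Y ^ (-η) ≤ Y ^ (-δ) := hmono (by linarith)
    gcongr
  have b5 : (S5.ncard : ℝ) ≤ Cq * (Y ^ ((5 : ℝ) / 6) * Y ^ (-δ)) := by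
    have k1 : ((T₀ * Pn : ℕ) : ℝ) ^ 8 ≤ Y ^ δu := by
      push_cast
      have k2 : (T₀ : ℝ) * Pn ≤ 2 * Y ^ (τ + π) := by
        rw [Real.rpow_add hY0, ← mul_assoc]
        exact mul_le_mul hT₀2 hPn1 (by positivity) (by positivity)
      have k3 := pow_le_pow_left₀ (by positivity) k2 8
      refine k3.trans ?_
      have k4 : (2 * Y ^ (τ + π)) ^ 8 = 256 * Y ^ (8 * (τ + π)) := by
        rw [mul_pow, ← Real.rpow_natCast (Y ^ (τ + π)), ← Real.rpow_mul hY0.le, mul_comm (τ + π)]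
        norm_num
      rw [k4]
      calc 256 * Y ^ (8 * (τ + π)) ≤ Y ^ (δu / 5) * Y ^ (4 * δu / 5) :=
            mul_le_mul hY2 (hmono (by linarith)) (by positivity) (by positivity)
        _ = Y ^ δu := by
            rw [← Real.rpow_add hY0]
            congr 1
            ring
    refine (hqc Y hY T₀ (T₀ * Pn) hT₀3 k1).trans ?_
    have k2 : (T₀ : ℝ) ^ (-(1 / 2) : ℝ) ≤ Y ^ (-δ) := by
      calc (T₀ : ℝ) ^ (-(1 / 2) : ℝ) ≤ (Y ^ τ) ^ (-(1 / 2) : ℝ) :=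
            Real.rpow_le_rpow_of_nonpos (by linarith) hT₀1 (by norm_num)
        _ = Y ^ (τ * (-(1 / 2))) := by rw [← Real.rpow_mul hY0.le]
        _ ≤ Y ^ (-δ) := hmono (by linarith)
    calc Cq * (T₀ : ℝ) ^ (-(1 / 2) : ℝ) * Y ^ ((5 : ℝ) / 6)
        ≤ Cq * Y ^ (-δ) * Y ^ ((5 : ℝ) / 6) := by gcongr
      _ = _ := by ring
  have b3 : (S3.ncard : ℝ) ≤ 300 * (Y ^ ((5 : ℝ) / 6) * Y ^ (-δ)) := by
    have k1 := med_bound hXge hPn4 (L := Y ^ (1 / 2 - π)) (by positivity)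
    refine k1.trans ?_
    have hPn0 : (0 : ℝ) < Pn := by
      have : (4 : ℝ) ≤ Pn := by exact_mod_cast hPn4
      linarith
    have hXp : ∀ s : ℝ, 0 ≤ s → s ≤ 1 → X ^ s ≤ 5 * Y ^ ((1 + 3 * η) * s) := by
      intro s hs0 hs1
      rw [hX1, Real.mul_rpow (by norm_num) (by positivity), ← Real.rpow_mul hY0.le]
      refine mul_le_mul_of_nonneg_right ?_ (by positivity)
      calc (5 : ℝ) ^ s ≤ 5 ^ (1 : ℝ) := Real.rpow_le_rpow_of_exponent_le (by norm_num) hs1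
        _ = 5 := Real.rpow_one _
    have e1 := hXp (1 / 2) (by norm_num) (by norm_num)
    have e2 := hXp (5 / 6) (by norm_num) (by norm_num)
    have e3 := hXp (1 / 3) (by norm_num) (by norm_num)
    have hW : Y ^ ((5 : ℝ) / 6) * Y ^ (-δ) = Y ^ (5 / 6 - δ) := by
      rw [← Real.rpow_add hY0]
      ring_nf
    rw [hW]
    have f1 : X ^ (1 / 2 : ℝ) ≤ 5 * Y ^ (5 / 6 - δ) :=
      e1.trans (mul_le_mul_of_nonneg_left (hmono (by nlinarith)) (by norm_num))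
    have f2 : X ^ (5 / 6 : ℝ) / Pn ≤ 10 * Y ^ (5 / 6 - δ) := by
      rw [div_le_iff₀ hPn0]
      refine e2.trans ?_
      have f3 : Y ^ ((1 + 3 * η) * (5 / 6)) ≤ Y ^ (5 / 6 - δ) * Y ^ π := by
        rw [← Real.rpow_add hY0]
        exact hmono (by nlinarith)
      have f4 : 0 < Y ^ (5 / 6 - δ) := Real.rpow_pos_of_pos hY0 _
      nlinarith
    have f3 : X ^ (1 / 3 : ℝ) * Y ^ (1 / 2 - π) ≤ 5 * Y ^ (5 / 6 - δ) := by
      calc X ^ (1 / 3 : ℝ) * Y ^ (1 / 2 - π) ≤ 5 * Y ^ ((1 + 3 * η) * (1 / 3)) * Y ^ (1 / 2 - π) := by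
            gcongr
        _ = 5 * (Y ^ ((1 + 3 * η) * (1 / 3)) * Y ^ (1 / 2 - π)) := by ring
        _ ≤ 5 * Y ^ (5 / 6 - δ) := by
            rw [← Real.rpow_add hY0]
            exact mul_le_mul_of_nonneg_left (hmono (by nlinarith)) (by norm_num)
    have e4 : 12 * X ^ (5 / 6 : ℝ) / Pn = 12 * (X ^ (5 / 6 : ℝ) / Pn) := by ring
    have e5 : 9 * X ^ (5 / 6 : ℝ) / Pn = 9 * (X ^ (5 / 6 : ℝ) / Pn) := by ring
    have e6 : 6 * X ^ (1 / 3 : ℝ) * Y ^ (1 / 2 - π) = 6 * (X ^ (1 / 3 : ℝ) * Y ^ (1 / 2 - π)) := by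
      ring
    rw [e4, e5, e6]
    linarith
  have e1 : (Cc + Cs + 300 + Cb + Cq) * (Y ^ ((5 : ℝ) / 6) * Y ^ (-δ)) =
      Cc * (Y ^ ((5 : ℝ) / 6) * Y ^ (-δ)) + (Cs * (Y ^ ((5 : ℝ) / 6) * Y ^ (-δ)) +
      (300 * (Y ^ ((5 : ℝ) / 6) * Y ^ (-δ)) + (Cb * (Y ^ ((5 : ℝ) / 6) * Y ^ (-δ)) +
      Cq * (Y ^ ((5 : ℝ) / 6) * Y ^ (-δ))))) := by ring
  rw [e1]
  linarith

theorem bad_all {ε κ : ℝ} (hε : 0 < ε) (hκ : κ < 8) : ∃ δ C : ℝ, 0 < δ ∧ 0 < C ∧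
    ∀ Y : ℝ, 1 ≤ Y → ((Bad ε κ Y).ncard : ℝ) ≤ C * Y ^ (5 / 6 - δ) := by
  set ε' := min ε 1 with hε'
  have hε'0 : 0 < ε' := lt_min hε one_pos
  set κ' := max κ 2 with hκ'
  have hκ'8 : κ' < 8 := max_lt hκ (by norm_num)
  have hκ'2 : 2 ≤ κ' := le_max_right _ _
  obtain ⟨δ, C, hδ, hC, h⟩ := bad_ev hε'0 (min_le_right _ _) hκ'2 hκ'8
  obtain ⟨Y₀, hY₀⟩ := eventually_atTop.1 h
  obtain ⟨δ', C', hδ', hC', h'⟩ := all_abs (κ' / 3) (by linarith) (by linarith)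
  set Y₁ := max Y₀ 1 with hY₁
  have hY₁1 : 1 ≤ Y₁ := le_max_right _ _
  have hc0 := c0_pos
  refine ⟨δ, C + (c0 + C') * Y₁ ^ δ, hδ, by positivity, fun Y hY => ?_⟩
  have hYp : 0 < Y := by linarith
  have hsub : Bad ε κ Y ⊆ Bad ε' κ' Y := by
    rintro z ⟨b1, b2, b3, b4⟩
    refine ⟨b1, b2, b3.trans (Real.rpow_le_rpow_of_exponent_le hY (le_max_left _ _)),
      fun b5 => b4 ?_⟩
    have hm := min_le_left ε 1
    refine ⟨b5.1.trans (Real.rpow_le_rpow_of_exponent_le (N6_ge_one _ _) (by linarith)),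
      fun Q hQ => (b5.2 Q hQ).trans (Real.rpow_le_rpow_of_exponent_le (N6_ge_one _ _) (by linarith))⟩
  have hfin : (Bad ε' κ' Y).Finite :=
    (fam_finite Qs Y (Y ^ (κ' / 3))).subset fun z hz => bad_fam hY le_rfl hz
  have g1 : ((Bad ε κ Y).ncard : ℝ) ≤ (Bad ε' κ' Y).ncard := by
    exact_mod_cast Set.ncard_le_ncard hsub hfin
  refine g1.trans ?_
  have e1 : Y ^ (5 / 6 - δ) = Y ^ ((5 : ℝ) / 6) * Y ^ (-δ) := by
    rw [← Real.rpow_add hYp]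
    ring_nf
  rw [e1]
  have hp : 0 < Y ^ ((5 : ℝ) / 6) * Y ^ (-δ) := by positivity
  rcases le_or_gt Y₀ Y with hc | hc
  · refine (hY₀ Y hc).trans (mul_le_mul_of_nonneg_right ?_ hp.le)
    have : 0 ≤ (c0 + C') * Y₁ ^ δ := by positivity
    linarith
  · have g2 : ((Bad ε' κ' Y).ncard : ℝ) ≤ (Fam (fun _ _ => True) Y (Y ^ (κ' / 3))).ncard := by
      refine (Nat.cast_le (α := ℝ)).2 (Set.ncard_le_ncard ?_ (fam_finite _ _ _))
      intro z hz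
      obtain ⟨b1, b2, b3, _⟩ := bad_fam hY le_rfl hz
      exact ⟨b1, b2, b3, trivial⟩
    have g3 := (abs_le.1 (h' Y hY)).2
    have g4 : Y ^ (-δ') ≤ 1 := Real.rpow_le_one_of_one_le_of_nonpos hY (by linarith)
    have hp56 : 0 < Y ^ ((5 : ℝ) / 6) := Real.rpow_pos_of_pos hYp _
    have g5 : C' * (Y ^ ((5 : ℝ) / 6) * Y ^ (-δ')) ≤ C' * (Y ^ ((5 : ℝ) / 6) * 1) := by gcongr
    have g6 : ((Bad ε' κ' Y).ncard : ℝ) ≤ (c0 + C') * Y ^ ((5 : ℝ) / 6) := by nlinarith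
    refine g6.trans ?_
    have g7 : 1 ≤ Y₁ ^ δ * Y ^ (-δ) := by
      rw [Real.rpow_neg hYp.le, ← div_eq_mul_inv, one_le_div (by positivity)]
      exact Real.rpow_le_rpow hYp.le (hc.le.trans (le_max_left _ _)) hδ.le
    calc (c0 + C') * Y ^ ((5 : ℝ) / 6) ≤ (c0 + C') * Y ^ ((5 : ℝ) / 6) * (Y₁ ^ δ * Y ^ (-δ)) :=
          le_mul_of_one_le_right (by positivity) g7
      _ = (c0 + C') * Y₁ ^ δ * (Y ^ ((5 : ℝ) / 6) * Y ^ (-δ)) := by ring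
      _ ≤ _ := mul_le_mul_of_nonneg_right (by linarith) hp.le

end Pool.Agent.H845.SZ
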